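import Mathlib
import Pool.Agent.W623.SecH.Stm

/-!
# The place above a branch point with prescribed square roots

(helper290)  `exists_place` and `exists_quad` are taken over from helper623's files
`Pool.Agent.W623.SecG.Base`, `Pool.Agent.W623.SecG.Good`.
-/

namespace Pool.Agent.W290.SecH

open Polynomial Pool.Agent.W623.SecH

universe u v w

section place

/-- a place with `x - e` a nonunit -/
theorem exists_place {k M : Type*} [Field k] [Field M] [Algebra k M] (x : M)
    (hx : Transcendental k x) (e : k) : ∃ W : ValuationSubring M,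
      (∀ c : k, algebraMap k M c ∈ W) ∧ x - algebraMap k M e ∈ W.nonunits := by
  set P : Ideal k[X] := Ideal.span {X - C e} with hP
  have hPp : P.IsPrime := by
    rw [hP, Ideal.span_singleton_prime (X_sub_C_ne_zero e)]
    exact (irreducible_X_sub_C e).prime
  have hinj : Function.Injective (aeval x : k[X] →ₐ[k] M) := transcendental_iff_injective.1 hx
  have hunit : ∀ p : P.primeCompl, IsUnit ((aeval x : k[X] →ₐ[k] M) (p : k[X])) := by
    intro p
    rw [isUnit_iff_ne_zero, Ne, map_eq_zero_iff _ hinj]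
    intro h
    apply p.2
    rw [h]
    exact P.zero_mem
  let φ : Localization.AtPrime P →+* M :=
    IsLocalization.lift (M := P.primeCompl) (g := ((aeval x : k[X] →ₐ[k] M) : k[X] →+* M)) hunit
  have hφ : ∀ p : k[X], φ (algebraMap k[X] (Localization.AtPrime P) p) = aeval x p := fun p =>
    IsLocalization.lift_eq hunit p
  obtain ⟨W, hW, hloc⟩ := IsLocalRing.exists_factor_valuationRing φ
  refine ⟨W, ?_, ?_⟩
  · intro c
    have h1 := hW (algebraMap k[X] (Localization.AtPrime P) (C c))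
    rw [hφ, aeval_C] at h1
    exact h1
  · have h1 : x - algebraMap k M e = φ (algebraMap k[X] (Localization.AtPrime P) (X - C e)) := by
      rw [hφ, map_sub, aeval_X, aeval_C]
    rw [h1]
    set a := algebraMap k[X] (Localization.AtPrime P) (X - C e) with ha
    have h2 : φ a ∈ W.nonunits ↔ (⟨φ a, hW a⟩ : W) ∈ IsLocalRing.maximalIdeal W :=
      W.coe_mem_nonunits_iff (a := ⟨φ a, hW a⟩)
    rw [h2, IsLocalRing.mem_maximalIdeal, mem_nonunits_iff]
    intro h3
    have h4 : IsUnit a := hloc.map_nonunit a h3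
    rw [ha, IsLocalization.AtPrime.isUnit_to_map_iff (Localization.AtPrime P) P] at h4
    exact h4 (Ideal.mem_span_singleton_self _)

end place

section kummer

variable {M : Type*} [Field M]

/-- adjoining a square root -/
theorem exists_quad (T : Subfield M) (δ : M) (hδ2 : δ ^ 2 ∈ T) :
    ∃ T' : Subfield M, T ≤ T' ∧ δ ∈ T' ∧ (∀ z ∈ T', ∃ a ∈ T, ∃ b ∈ T, z = a + b * δ) := by
  by_cases hδT : δ ∈ T
  · exact ⟨T, le_rfl, hδT, fun z hz => ⟨z, hz, 0, zero_mem T, by ring⟩⟩
  refine ⟨{ carrier := {x | ∃ a ∈ T, ∃ b ∈ T, x = a + b * δ}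
            mul_mem' := ?_
            one_mem' := ⟨1, one_mem T, 0, zero_mem T, by ring⟩
            add_mem' := ?_
            zero_mem' := ⟨0, zero_mem T, 0, zero_mem T, by ring⟩
            neg_mem' := ?_
            inv_mem' := ?_ }, ?_, ?_, ?_⟩
  · rintro x z ⟨a, ha, b, hb, rfl⟩ ⟨c, hc, d, hd, rfl⟩
    refine ⟨a * c + b * d * δ ^ 2, add_mem (mul_mem ha hc) (mul_mem (mul_mem hb hd) hδ2),
      a * d + b * c, add_mem (mul_mem ha hd) (mul_mem hb hc), ?_⟩
    ring
  · rintro x z ⟨a, ha, b, hb, rfl⟩ ⟨c, hc, d, hd, rfl⟩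
    exact ⟨a + c, add_mem ha hc, b + d, add_mem hb hd, by ring⟩
  · rintro x ⟨a, ha, b, hb, rfl⟩
    exact ⟨-a, neg_mem ha, -b, neg_mem hb, by ring⟩
  · rintro x ⟨a, ha, b, hb, rfl⟩
    by_cases hN : a ^ 2 - b ^ 2 * δ ^ 2 = 0
    · by_cases hb0 : b = 0
      · subst hb0
        exact ⟨a⁻¹, inv_mem ha, 0, zero_mem T, by simp⟩
      · exfalso
        apply hδT
        have h1 : (a / b) ^ 2 = δ ^ 2 := by
          rw [div_pow, div_eq_iff (pow_ne_zero 2 hb0)]
          linear_combination hN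
        rcases sq_eq_sq_iff_eq_or_eq_neg.1 h1 with h | h
        · rw [← h]; exact div_mem ha hb
        · have : δ = -(a / b) := by rw [h, neg_neg]
          rw [this]; exact neg_mem (div_mem ha hb)
    · have hmem : a ^ 2 - b ^ 2 * δ ^ 2 ∈ T :=
        sub_mem (pow_mem ha 2) (mul_mem (pow_mem hb 2) hδ2)
      refine ⟨a / (a ^ 2 - b ^ 2 * δ ^ 2), div_mem ha hmem, -b / (a ^ 2 - b ^ 2 * δ ^ 2),
        div_mem (neg_mem hb) hmem, ?_⟩
      have hx0 : a + b * δ ≠ 0 := by
        intro h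
        apply hN
        have : a ^ 2 - b ^ 2 * δ ^ 2 = (a + b * δ) * (a - b * δ) := by ring
        rw [this, h, zero_mul]
      apply inv_eq_of_mul_eq_one_right
      field_simp
      ring
  · intro x hx
    exact ⟨x, hx, 0, zero_mem T, by ring⟩
  · exact ⟨0, zero_mem T, 1, one_mem T, by ring⟩
  · intro z hz
    exact hz

theorem step [CharZero M] (T1 : Subfield M) (s : M) (hs : s ^ 2 ∈ T1) :
    ∃ T : Subfield M, T1 ≤ T ∧ s ∈ T ∧ ∀ z ∈ T, z ^ 2 ∈ T1 → z ∈ T1 ∨ z * s ∈ T1 := by
  obtain ⟨T, h1, h2, h3⟩ := exists_quad T1 s hs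
  refine ⟨T, h1, h2, fun z hz hz2 => ?_⟩
  obtain ⟨a, ha, b, hb, rfl⟩ := h3 z hz
  by_cases ha0 : a = 0
  · right
    have h4 : (a + b * s) * s = b * s ^ 2 := by rw [ha0]; ring
    rw [h4]
    exact mul_mem hb hs
  by_cases hb0 : b = 0
  · left
    rw [hb0, zero_mul, add_zero]
    exact ha
  left
  have hs1 : s ∈ T1 := by
    have h4 : s = ((a + b * s) ^ 2 - a ^ 2 - b ^ 2 * s ^ 2) / ((1 + 1) * a * b) := by
      have h5 : (1 + 1 : M) ≠ 0 := by norm_num
      field_simp
      ring
    rw [h4]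
    exact div_mem (sub_mem (sub_mem hz2 (pow_mem ha 2)) (mul_mem (pow_mem hb 2) hs))
      (mul_mem (mul_mem (add_mem (one_mem _) (one_mem _)) ha) hb)
  exact add_mem ha (mul_mem hb hs1)

theorem kum [CharZero M] {I : Type*} [DecidableEq I] (K : Subfield M) (d : I → M)
    (J : Finset I) : (∀ i ∈ J, d i ^ 2 ∈ K) → ∃ T : Subfield M, K ≤ T ∧ (∀ i ∈ J, d i ∈ T) ∧
      ∀ z ∈ T, z ^ 2 ∈ K → ∃ J' ⊆ J, z * ∏ i ∈ J', d i ∈ K := by
  induction J using Finset.induction_on with
  | empty => exact fun _ => ⟨K, le_rfl, by simp, fun z hz _ => ⟨∅, by simp, by simpa using hz⟩⟩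
  | insert s J hs ih =>
    intro hd
    obtain ⟨T1, h1, h2, h3⟩ := ih fun i hi => hd i (Finset.mem_insert_of_mem hi)
    have hs2 := hd s (Finset.mem_insert_self _ _)
    obtain ⟨T, g1, g2, g3⟩ := step T1 (d s) (h1 hs2)
    refine ⟨T, h1.trans g1, ?_, ?_⟩
    · intro i hi
      rcases Finset.mem_insert.1 hi with rfl | hi
      · exact g2
      · exact g1 (h2 i hi)
    · intro z hz hz2
      rcases g3 z hz (h1 hz2) with h | h
      · obtain ⟨J', hJ', hJ2⟩ := h3 z h hz2
        exact ⟨J', hJ'.trans (Finset.subset_insert _ _), hJ2⟩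
      · obtain ⟨J', hJ', hJ2⟩ := h3 (z * d s) h (by rw [mul_pow]; exact mul_mem hz2 hs2)
        refine ⟨insert s J', Finset.insert_subset_insert _ hJ', ?_⟩
        rw [Finset.prod_insert (fun h5 => hs (hJ' h5)), ← mul_assoc]
        exact hJ2

end kummer

section rat

variable {A : Type*} {M : Type*} [Field A] [Field M] (ι : A →+* M) (x : M)

/-- the field `A(x)` -/
def KK : Subfield M := Subfield.closure (Set.range ι ∪ {x})

lemma ev_mem (p : A[X]) : eval₂ ι x p ∈ KK ι x := by
  rw [eval₂_eq_sum_range]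
  refine sum_mem fun i _ => mul_mem ?_ (pow_mem ?_ _)
  · exact Subfield.subset_closure (Or.inl ⟨_, rfl⟩)
  · exact Subfield.subset_closure (Or.inr rfl)

variable (htr : ∀ p : A[X], p ≠ 0 → eval₂ ι x p ≠ 0)

include htr in
lemma mem_KK (w : M) (hw : w ∈ KK ι x) : ∃ p q : A[X], w * eval₂ ι x q = eval₂ ι x p ∧ q ≠ 0 := by
  have hsub : Subring.closure (Set.range ι ∪ {x}) ≤ (eval₂RingHom ι x).range := by
    rw [Subring.closure_le]
    rintro z (⟨a, rfl⟩ | hz)
    · exact ⟨C a, by simp⟩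
    · rw [Set.mem_singleton_iff] at hz
      exact ⟨X, by simp [hz]⟩
  obtain ⟨y, hy, z, hz, hyz⟩ := Subfield.mem_closure_iff.1 hw
  obtain ⟨p, hp⟩ := hsub hy
  obtain ⟨q, hq⟩ := hsub hz
  rw [coe_eval₂RingHom] at hp hq
  by_cases hq0 : q = 0
  · refine ⟨0, 1, ?_, one_ne_zero⟩
    rw [hq0, eval₂_zero] at hq
    rw [← hyz, ← hq, div_zero, zero_mul, eval₂_zero]
  · refine ⟨p, q, ?_, hq0⟩
    rw [hq, hp, ← hyz, div_mul_cancel₀]
    rw [← hq]
    exact htr q hq0

include htr in
theorem no_sq (w : M) (hw : w ∈ KK ι x) (t : A) (H : A[X]) (hH : H.eval t ≠ 0)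
    (h : w ^ 2 = eval₂ ι x ((X - C t) * H)) : False := by
  obtain ⟨p, q, hpq, hq⟩ := mem_KK ι x htr w hw
  have h1 : eval₂ ι x (p ^ 2 - q ^ 2 * ((X - C t) * H)) = 0 := by
    rw [eval₂_sub, eval₂_pow, eval₂_mul, eval₂_pow, ← h, ← hpq]
    ring
  have h2 : p ^ 2 = q ^ 2 * ((X - C t) * H) := by
    by_contra h3
    exact htr _ (sub_ne_zero.2 h3) h1
  have hH0 : H ≠ 0 := by
    rintro rfl
    exact hH eval_zero
  have hX0 : (X - C t : A[X]) * H ≠ 0 := mul_ne_zero (X_sub_C_ne_zero t) hH0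
  have hR : q ^ 2 * ((X - C t) * H) ≠ 0 := mul_ne_zero (pow_ne_zero _ hq) hX0
  have hp2 : p * p ≠ 0 := by
    rw [← pow_two, h2]
    exact hR
  have hq2 : q * q ≠ 0 := mul_ne_zero hq hq
  have h4 : rootMultiplicity t (p ^ 2) = rootMultiplicity t (q ^ 2 * ((X - C t) * H)) := by
    rw [h2]
  rw [rootMultiplicity_mul hR, rootMultiplicity_mul hX0, rootMultiplicity_X_sub_C_self,
    rootMultiplicity_eq_zero hH, pow_two, pow_two, rootMultiplicity_mul hp2,
    rootMultiplicity_mul hq2] at h4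
  omega

end rat

section one

variable {M : Type*} [Field M] {W : ValuationSubring M}

lemma non_mul {a b : M} (ha : a ∈ W) (hb : b ∈ W.nonunits) : a * b ∈ W.nonunits := by
  rw [W.mem_nonunits_iff, map_mul]
  exact lt_of_le_of_lt (mul_le_of_le_one_left' ((W.valuation_le_one_iff _).2 ha))
    ((W.mem_nonunits_iff).1 hb)

lemma one_mem' {a : M} (ha : a - 1 ∈ W.nonunits) : a ∈ W := by
  have h3 : a = (a - 1) + 1 := by ring
  rw [h3]
  exact add_mem (W.nonunits_subset ha) (one_mem _)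

lemma one_mul' {a b : M} (ha : a - 1 ∈ W.nonunits) (hb : b - 1 ∈ W.nonunits) :
    a * b - 1 ∈ W.nonunits := by
  have h3 : a * b - 1 = b * (a - 1) + (b - 1) := by ring
  rw [h3]
  exact add_mem (non_mul (one_mem' hb) ha) hb

lemma one_val {a : M} (ha : a - 1 ∈ W.nonunits) : W.valuation a = 1 := by
  have h1 : W.valuation (a - 1) < 1 := (W.mem_nonunits_iff).1 ha
  have h2 : W.valuation (1 + (a - 1)) = W.valuation 1 := by
    apply Valuation.map_add_eq_of_lt_left
    rwa [map_one]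
  rw [map_one] at h2
  rw [← h2]
  congr 1
  ring

lemma one_div' {a b : M} (ha : a - 1 ∈ W.nonunits) (hb : a * b - 1 ∈ W.nonunits) :
    b - 1 ∈ W.nonunits := by
  have h1 : a * (b - 1) = (a * b - 1) - (a - 1) := by ring
  have h2 : a * (b - 1) ∈ W.nonunits := by
    rw [h1]
    exact sub_mem hb ha
  rw [W.mem_nonunits_iff, map_mul, one_val ha, one_mul] at h2
  exact (W.mem_nonunits_iff).2 h2

lemma sign_choice {δ : M} (h : δ ^ 2 - 1 ∈ W.nonunits) :
    δ - 1 ∈ W.nonunits ∨ -δ - 1 ∈ W.nonunits := by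
  have h6 : (δ - 1) * (-δ - 1) = (-1) * (δ ^ 2 - 1) := by ring
  have h7 : (δ - 1) * (-δ - 1) ∈ W.nonunits := by
    rw [h6]
    exact non_mul (neg_mem (one_mem _)) h
  by_contra hcon
  push Not at hcon
  rw [W.mem_nonunits_iff, map_mul] at h7
  rw [W.mem_nonunits_iff, W.mem_nonunits_iff, not_lt, not_lt] at hcon
  exact absurd h7 (not_lt.2 (one_le_mul hcon.1 hcon.2))

lemma non_comap (α : M ≃+* M) (z : M) :
    z ∈ (W.comap (α : M →+* M)).nonunits ↔ α z ∈ W.nonunits := by
  rw [ValuationSubring.mem_nonunits_iff_or, ValuationSubring.mem_nonunits_iff_or,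
    ValuationSubring.mem_comap]
  simp

end one

section etp

variable {A : Type*} {M : Type*} [Field A] [Field M] (ι : A →+* M) {X : Type*} (θ : X → A)
  (x : M) (r : X)

/-- the normalised linear polynomials -/
noncomputable def etp (i : X) : A[X] := C ((θ r - θ i)⁻¹) * (Polynomial.X - C (θ i))

lemma ev_etp (i : X) : eval₂ ι x (etp θ r i) = et ι θ x r i := by
  unfold etp et
  rw [eval₂_mul, eval₂_C, eval₂_sub, eval₂_X, eval₂_C, map_inv₀, div_eq_inv_mul]

lemma etp_eval (hθ : Function.Injective θ) (i : X) (hi : i ≠ r) (t : A) (ht : t ≠ θ i) :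
    (etp θ r i).eval t ≠ 0 := by
  unfold etp
  rw [eval_mul, eval_C, eval_sub, eval_X, eval_C]
  exact mul_ne_zero (inv_ne_zero (sub_ne_zero.2 (hθ.ne hi.symm))) (sub_ne_zero.2 ht)

end etp

/-- **existence of the place** -/
theorem placex : PLACEX.{u, v, w} := by
  intro A M _ _ _ _ ι X _ _ hev θ hθ c hc x y hy hxy htr r δ hδ2 hδδ hgal
  haveI : CharZero M := charZero_of_injective_ringHom ι.injective
  letI : Algebra A M := ι.toAlgebra
  have hxt : Transcendental A x := by
    rintro ⟨p, hp0, hp⟩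
    exact htr p hp0 (by rw [← hp]; rfl)
  have hsub : ∀ i, x - ι (θ i) ≠ 0 := by
    intro i
    have h := htr (Polynomial.X - C (θ i)) (X_sub_C_ne_zero _)
    rwa [eval₂_sub, eval₂_X, eval₂_C] at h
  have hι : ∀ i, i ≠ r → ι (θ r - θ i) ≠ 0 := fun i hi =>
    (_root_.map_ne_zero ι).2 (sub_ne_zero.2 (hθ.ne hi.symm))
  obtain ⟨j1, hj1⟩ : ∃ j1, j1 ≠ r := by
    haveI : Nonempty X := ⟨r⟩
    have h1 : 0 < Fintype.card X := Fintype.card_pos
    obtain ⟨n, hn⟩ := hev
    exact Fintype.exists_ne_of_one_lt_card (by omega) r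
  have het0 : ∀ i, i ≠ r → et ι θ x r i ≠ 0 := fun i hi => div_ne_zero (hsub i) (hι i hi)
  have het : ∀ W : ValuationSubring M, (∀ a, ι a ∈ W) → x - ι (θ r) ∈ W.nonunits →
      ∀ i, i ≠ r → et ι θ x r i - 1 ∈ W.nonunits := by
    intro W h1 h2 i hi
    have h3 : et ι θ x r i - 1 = ι ((θ r - θ i)⁻¹) * (x - ι (θ r)) := by
      unfold et
      rw [map_inv₀]
      have h4 := hι i hi
      rw [map_sub] at h4 ⊢
      field_simp
      ring
    rw [h3]
    exact non_mul (h1 _) h2
  have hdiag : ∀ i, i ≠ r → δ i i = et ι θ x r i := by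
    intro i hi
    have h1 := hδδ i i i hi hi hi
    have h2 := hδ2 i i hi hi
    have h3 : δ i i ≠ 0 := by
      intro h
      rw [h, zero_pow (by norm_num)] at h2
      exact mul_ne_zero (het0 i hi) (het0 i hi) h2.symm
    exact mul_right_cancel₀ h3 h1
  have hδK : ∀ l, l ≠ r → δ j1 l ^ 2 ∈ KK ι x := by
    intro l hl
    rw [hδ2 j1 l hj1 hl, ← ev_etp, ← ev_etp]
    exact mul_mem (ev_mem ι x _) (ev_mem ι x _)
  have hy2 : y ^ 2 = eval₂ ι x (C c⁻¹ * ∏ i, (Polynomial.X - C (θ i))) := by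
    rw [eval₂_mul, eval₂_C, eval₂_finsetProd]
    simp only [eval₂_sub, eval₂_X, eval₂_C]
    rw [← hxy, ← mul_assoc, ← map_mul, inv_mul_cancel₀ hc, map_one, one_mul]
  have key : ∀ S : Finset X, (∀ l ∈ S, l ≠ r ∧ l ≠ j1) → ∃ W : ValuationSubring M,
      (∀ a, ι a ∈ W) ∧ x - ι (θ r) ∈ W.nonunits ∧ ∀ l ∈ S, δ j1 l - 1 ∈ W.nonunits := by
    intro S
    induction S using Finset.induction_on with
    | empty =>
      intro _
      obtain ⟨W, h1, h2⟩ := exists_place x hxt (θ r)
      exact ⟨W, h1, h2, by simp⟩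
    | insert m S hm ih =>
      intro hS
      have hS' : ∀ l ∈ S, l ≠ r ∧ l ≠ j1 := fun l hl => hS l (Finset.mem_insert_of_mem hl)
      obtain ⟨W, h1, h2, h3⟩ := ih hS'
      obtain ⟨hmr, hmj⟩ := hS m (Finset.mem_insert_self _ _)
      have h4 : δ j1 m ^ 2 - 1 ∈ W.nonunits := by
        rw [hδ2 j1 m hj1 hmr]
        exact one_mul' (het W h1 h2 j1 hj1) (het W h1 h2 m hmr)
      rcases sign_choice h4 with h5 | h5
      · refine ⟨W, h1, h2, fun l hl => ?_⟩
        rcases Finset.mem_insert.1 hl with rfl | hl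
        · exact h5
        · exact h3 l hl
      · obtain ⟨T1, t1, t2, t3⟩ := kum (KK ι x) (fun l => δ j1 l) S
          (fun l hl => hδK l (hS' l hl).1)
        have hyK : y ^ 2 ∈ KK ι x := by
          rw [hy2]
          exact ev_mem ι x _
        obtain ⟨T, g1, g2, g3⟩ := step T1 y (t1 hyK)
        have hprod : ∀ J' ⊆ S, (∏ l ∈ J', δ j1 l) ^ 2 =
            eval₂ ι x (∏ l ∈ J', (etp θ r j1 * etp θ r l)) := by
          intro J' hJ'
          rw [eval₂_finsetProd, ← Finset.prod_pow]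
          apply Finset.prod_congr rfl
          intro l hl
          rw [hδ2 j1 l hj1 (hS' l (hJ' hl)).1, eval₂_mul, ev_etp, ev_etp]
        have hnot : δ j1 m ∉ T := by
          intro hT
          rcases g3 _ hT (t1 (hδK m hmr)) with h | h
          · obtain ⟨J', hJ', hJ2⟩ := t3 _ h (hδK m hmr)
            refine no_sq ι x htr _ hJ2 (θ m)
              (etp θ r j1 * C ((θ r - θ m)⁻¹) * ∏ l ∈ J', (etp θ r j1 * etp θ r l)) ?_ ?_
            · rw [eval_mul, eval_mul, eval_C, eval_prod]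
              refine mul_ne_zero (mul_ne_zero (etp_eval θ r hθ j1 hj1 _ (hθ.ne hmj)) ?_) ?_
              · exact inv_ne_zero (sub_ne_zero.2 (hθ.ne hmr.symm))
              · refine Finset.prod_ne_zero_iff.2 fun l hl => ?_
                rw [eval_mul]
                refine mul_ne_zero (etp_eval θ r hθ j1 hj1 _ (hθ.ne hmj))
                  (etp_eval θ r hθ l (hS' l (hJ' hl)).1 _ (hθ.ne ?_))
                rintro rfl
                exact hm (hJ' hl)
            · rw [mul_pow, hprod J' hJ', hδ2 j1 m hj1 hmr, ← ev_etp, ← ev_etp, ← eval₂_mul,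
                ← eval₂_mul]
              congr 1
              unfold etp
              ring
          · obtain ⟨J', hJ', hJ2⟩ := t3 _ h (by
              rw [mul_pow]
              exact mul_mem (hδK m hmr) hyK)
            refine no_sq ι x htr _ hJ2 (θ r)
              (etp θ r j1 * etp θ r m * C c⁻¹ *
                (∏ i ∈ Finset.univ.erase r, (Polynomial.X - C (θ i))) *
                ∏ l ∈ J', (etp θ r j1 * etp θ r l)) ?_ ?_
            · rw [eval_mul, eval_mul, eval_mul, eval_mul, eval_C, eval_prod, eval_prod]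
              refine mul_ne_zero (mul_ne_zero (mul_ne_zero (mul_ne_zero
                (etp_eval θ r hθ j1 hj1 _ (hθ.ne hj1.symm))
                (etp_eval θ r hθ m hmr _ (hθ.ne hmr.symm))) (inv_ne_zero hc)) ?_) ?_
              · refine Finset.prod_ne_zero_iff.2 fun l hl => ?_
                rw [eval_sub, eval_X, eval_C]
                exact sub_ne_zero.2 (hθ.ne (Finset.ne_of_mem_erase hl).symm)
              · refine Finset.prod_ne_zero_iff.2 fun l hl => ?_
                rw [eval_mul]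
                exact mul_ne_zero (etp_eval θ r hθ j1 hj1 _ (hθ.ne hj1.symm))
                  (etp_eval θ r hθ l (hS' l (hJ' hl)).1 _ (hθ.ne (hS' l (hJ' hl)).1.symm))
            · rw [mul_pow, mul_pow, hprod J' hJ', hδ2 j1 m hj1 hmr, hy2, ← ev_etp, ← ev_etp,
                ← eval₂_mul, ← eval₂_mul, ← eval₂_mul]
              congr 1
              rw [← Finset.mul_prod_erase Finset.univ (fun i => Polynomial.X - C (θ i))
                (Finset.mem_univ r)]
              ring
        have hKT : KK ι x ≤ T := t1.trans g1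
        obtain ⟨α, α1, α2⟩ := hgal T
          (fun a => hKT (Subfield.subset_closure (Or.inl ⟨a, rfl⟩)))
          (hKT (Subfield.subset_closure (Or.inr rfl))) g2 _ hnot
        have α3 : α (δ j1 m) = -δ j1 m := by
          have h6 : α (δ j1 m) ^ 2 = δ j1 m ^ 2 := by
            rw [← map_pow]
            exact α1 _ (hKT (hδK m hmr))
          exact (sq_eq_sq_iff_eq_or_eq_neg.1 h6).resolve_left α2
        have hιT : ∀ a, ι a ∈ T := fun a => hKT (Subfield.subset_closure (Or.inl ⟨a, rfl⟩))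
        have hxT : x ∈ T := hKT (Subfield.subset_closure (Or.inr rfl))
        refine ⟨W.comap (α : M →+* M), ?_, ?_, ?_⟩
        · intro a
          rw [ValuationSubring.mem_comap]
          have h7 : (α : M →+* M) (ι a) = ι a := α1 _ (hιT a)
          rw [h7]
          exact h1 a
        · rw [non_comap, α1 _ (sub_mem hxT (hιT _))]
          exact h2
        · intro l hl
          rw [non_comap, map_sub, map_one]
          rcases Finset.mem_insert.1 hl with rfl | hl
          · rw [α3]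
            exact h5
          · rw [α1 _ (g1 (t2 l hl))]
            exact h3 l hl
  obtain ⟨W, h1, h2, h3⟩ := key (Finset.univ.filter fun l => l ≠ r ∧ l ≠ j1)
    (fun l hl => (Finset.mem_filter.1 hl).2)
  have h4 : ∀ l, l ≠ r → δ j1 l - 1 ∈ W.nonunits := by
    intro l hl
    by_cases hlj : l = j1
    · rw [hlj, hdiag j1 hj1]
      exact het W h1 h2 j1 hj1
    · exact h3 l (Finset.mem_filter.2 ⟨Finset.mem_univ _, hl, hlj⟩)
  have h5 : ∀ i, i ≠ r → δ i j1 - 1 ∈ W.nonunits := by
    intro i hi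
    apply one_div' (h4 i hi)
    rw [hδδ j1 i j1 hj1 hi hj1, hdiag j1 hj1]
    exact one_mul' (het W h1 h2 i hi) (het W h1 h2 j1 hj1)
  refine ⟨W, h1, h2, fun i j hi hj => ?_⟩
  apply one_div' (het W h1 h2 j1 hj1)
  rw [← hδδ i j1 j hi hj1 hj]
  exact one_mul' (h5 i hi) (h4 j hj)

end Pool.Agent.W290.SecH
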